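import Mathlib
import Pool.Agent.W2helper77.CS.Asm
import Pool.Agent.W2helper24.CS.Odd

/-!
# The Coxeter sorting time of cyclic permutations is `(8 - π)/16 · n² + O(n)`

`|Sort_n - (8 - π)/16 · n²| ≤ 5/2 · n` for every `n ≥ 1`.

The proof. Centre the values of a permutation (`v = 2σ + 1 - n`) and rotate it so that all the
partial sums are `≤ 0`. Then the number of ascending pairs is at least a sum `J` over two lists of
cells (a value of absolute value `k` is replaced by `k` cells of weight `1/k`), which is invariant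
under simultaneous rotation of the two lists; removing the largest cells after a rotation given by
the cycle lemma and using `x √(w² - y²) + y √(w² - x²) ≤ w²` gives `J ≥ π n²/16 - n/2`.
-/

set_option autoImplicit false

namespace Pool.Agent.Results.MP_8de615_co.CoxeterSortingTime

open Equiv

/-- the `n`-cycles, that is, the conjugates of `c_n = finRotate n : i ↦ i + 1 (mod n)` -/
abbrev Cyc (n : ℕ) : Type := {γ : Perm (Fin n) // IsConj (finRotate n) γ}

/-- the cycle `c_n = (1, 2, …, n)` -/
def cyc (n : ℕ) : Cyc n := ⟨finRotate n, IsConj.refl _⟩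

/-- the graph `Γ_n`: distinct `n`-cycles `a`, `b` are adjacent when `b = s a s` for an adjacent
transposition `s = (i, i + 1)` -/
def Gam (n : ℕ) : SimpleGraph (Cyc n) where
  Adj a b := a ≠ b ∧ ∃ i j : Fin n, (i : ℕ) + 1 = j ∧ b.1 = swap i j * a.1 * swap i j
  symm := (Pool.Agent.N476.CT.Gam n).symm
  loopless := (Pool.Agent.N476.CT.Gam n).loopless

/-- `Sort_n`: the largest distance of an `n`-cycle from `c_n` in `Γ_n` -/
noncomputable def SortTime (n : ℕ) : ℕ∞ := ⨆ γ : Cyc n, (Gam n).edist (cyc n) γ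

/-- `Sort_n = (8 - π)/16 · n² + O(n)`: for every `n ≥ 1` the maximum `Sort_n` is finite and
differs from `(8 - π)/16 · n²` by at most `5/2 · n`. -/
theorem result : ∀ n : ℕ, 1 ≤ n → ∃ k : ℕ, SortTime n = k ∧
    |(k : ℝ) - (8 - Real.pi) / 16 * (n : ℝ) ^ 2| ≤ 5 / 2 * (n : ℝ) := by
  intro n hn
  obtain ⟨k, hk, h1, h2⟩ := Pool.Agent.W2helper77.CS.final Pool.Agent.W2helper24.CS.odd n hn
  refine ⟨k, hk, ?_⟩
  have hn0 : (0 : ℝ) ≤ n := Nat.cast_nonneg n
  rw [abs_le]
  constructor <;> linarith

end Pool.Agent.Results.MP_8de615_co.CoxeterSortingTime
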